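import Pool.Agent.Helper72.MK.Goals

/-!
# MK, goal PLN: choice of the coordinates in the plane
-/

open MeasureTheory Set Filter Topology
open scoped ENNReal
open Pool.Agent.Helper47.AQ Pool.Agent.Helper72.MK

noncomputable section

namespace Pool.Agent.Helper5.MK

/-- unit vector of angle `θ` -/
def dir (θ : ℝ) : Fin 2 → ℝ := ![Real.cos θ, Real.sin θ]

theorem dir_continuous : Continuous dir := by
  refine continuous_pi fun i => ?_
  fin_cases i
  · exact Real.continuous_cos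
  · exact Real.continuous_sin

theorem dir_ne (θ : ℝ) : dir θ ≠ 0 := by
  intro h
  have h0 : Real.cos θ = 0 := congrFun h 0
  have h1 : Real.sin θ = 0 := congrFun h 1
  have := Real.sin_sq_add_cos_sq θ
  rw [h0, h1] at this
  norm_num at this

theorem hs_neg {L : Set (Fin 2 → ℝ)} (hL : IsBody L) (hsym : ∀ p ∈ L, -p ∈ L) (z : Fin 2 → ℝ) :
    hs L (-z) = hs L z := by
  have key : ∀ z : Fin 2 → ℝ, hs L (-z) ≤ hs L z := by
    intro z
    refine hL.hs_le _ _ fun x hx => ?_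
    have := hL.le_hs z (hsym x hx)
    simpa using this
  refine le_antisymm (key z) ?_
  have := key (-z)
  rwa [neg_neg] at this

theorem hs_pos {L : Set (Fin 2 → ℝ)} (hL : IsBody L) (hsym : ∀ p ∈ L, -p ∈ L) {z : Fin 2 → ℝ}
    (hz : z ≠ 0) : 0 < hs L z := by
  obtain ⟨ε, hε, h⟩ := hL.le_wd
  have h1 := h z
  unfold wd at h1
  rw [hs_neg hL hsym] at h1
  have h2 : 0 < ∑ i, |z i| := by
    obtain ⟨i, hi⟩ := Function.ne_iff.1 hz
    exact Finset.sum_pos' (fun _ _ => abs_nonneg _) ⟨i, Finset.mem_univ _, abs_pos.2 hi⟩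
  nlinarith

theorem hs_zero {L : Set (Fin 2 → ℝ)} (hL : IsBody L) : hs L 0 = 0 := by
  refine le_antisymm (hL.hs_le _ _ fun x _ => by simp) ?_
  obtain ⟨x, hx⟩ := hL.nonempty
  have := hL.le_hs 0 hx
  simpa using this

theorem attained {L : Set (Fin 2 → ℝ)} (hL : IsBody L) (z : Fin 2 → ℝ) :
    ∃ p ∈ L, ∑ i, p i * z i = hs L z := by
  have hc : Continuous fun p : Fin 2 → ℝ => ∑ i, z i * p i := by fun_prop
  obtain ⟨p, hp, hmax⟩ := hL.comp.exists_isMaxOn hL.nonempty hc.continuousOn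
  refine ⟨p, hp, ?_⟩
  have h1 : ∑ i, p i * z i = ∑ i, z i * p i := Finset.sum_congr rfl fun i _ => mul_comm _ _
  rw [h1]
  refine le_antisymm (hL.le_hs z hp) (hL.hs_le _ _ fun x hx => ?_)
  exact hmax hx

theorem unit_ok (hBIP : BIPStmt) {P : Set (Fin 2 → ℝ)} (hP : IsBody P) (hL : IsBody (dpol P))
    {z : Fin 2 → ℝ} (hz : hs (dpol P) z = 1) :
    (∃ x ∈ P, x + z ∈ P) ∧ ∃ p ∈ dpol P, ∑ i, p i * z i = 1 := by
  constructor
  · obtain ⟨x, hx, y, hy, h⟩ := hBIP (Fin 2) P hP z (fun p hp => by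
      have h1 : ∑ i, p i * z i = ∑ i, z i * p i := Finset.sum_congr rfl fun i _ => mul_comm _ _
      rw [h1, ← hz]
      exact hL.le_hs z hp)
    refine ⟨y, hy, ?_⟩
    rw [h, add_sub_cancel]
    exact hx
  · obtain ⟨p, hp, h⟩ := attained hL z
    exact ⟨p, hp, h.trans hz⟩

theorem pln (hBIP : BIPStmt) (hBODY : BODYStmt) : PLNStmt := by
  intro P hP
  obtain ⟨hL, hsym⟩ := hBODY (Fin 2) P hP
  set N : (Fin 2 → ℝ) → ℝ := hs (dpol P) with hN
  have hpos : ∀ θ, 0 < N (dir θ) := fun θ => hs_pos hL hsym (dir_ne θ)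
  set c : ℝ → Fin 2 → ℝ := fun θ => (N (dir θ))⁻¹ • dir θ with hc
  have hNc : ∀ θ, N (c θ) = 1 := by
    intro θ
    rw [hc]
    simp only
    rw [hN, hL.hs_smul _ (inv_pos.2 (hpos θ)), inv_mul_cancel₀ (hpos θ).ne']
  have hcc : Continuous c := by
    have h1 : Continuous fun θ : ℝ => (N (dir θ))⁻¹ :=
      (hL.hs_continuous.comp dir_continuous).inv₀ fun θ => (hpos θ).ne'
    exact h1.smul dir_continuous
  set h : ℝ → ℝ := fun θ => N (c 0 + c θ) with hh
  have hhc : Continuous h := hL.hs_continuous.comp (continuous_const.add hcc)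
  have h0 : h 0 = 2 := by
    rw [hh]
    simp only
    rw [← two_smul ℝ (c 0), hN, hL.hs_smul _ two_pos, ← hN, hNc, mul_one]
  have hdirpi : dir Real.pi = -dir 0 := by
    ext i
    fin_cases i <;> simp [dir]
  have hcpi : c Real.pi = -c 0 := by
    rw [hc]
    simp only
    rw [hdirpi, hN, hs_neg hL hsym, smul_neg]
  have hpi : h Real.pi = 0 := by
    rw [hh]
    simp only
    rw [hcpi, add_neg_cancel, hN, hs_zero hL]
  obtain ⟨θ, hθ, hθ1⟩ := intermediate_value_Icc' Real.pi_pos.le hhc.continuousOn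
    (show (1 : ℝ) ∈ Icc (h Real.pi) (h 0) by rw [h0, hpi]; constructor <;> norm_num)
  have hθ0 : θ ≠ 0 := by
    rintro rfl
    rw [h0] at hθ1
    norm_num at hθ1
  have hθpi : θ ≠ Real.pi := by
    rintro rfl
    rw [hpi] at hθ1
    norm_num at hθ1
  have hsin : 0 < Real.sin θ := Real.sin_pos_of_pos_of_lt_pi
    (lt_of_le_of_ne hθ.1 (Ne.symm hθ0)) (lt_of_le_of_ne hθ.2 hθpi)
  have hz1 := unit_ok hBIP hP hL (hNc 0)
  have hz2 := unit_ok hBIP hP hL (hNc θ)
  have hz3 := unit_ok hBIP hP hL (z := c 0 + c θ) hθ1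
  refine ⟨c 0, c θ, ?_, hz1.1, hz2.1, hz3.1, hz1.2, hz2.2, hz3.2⟩
  have e1 : c 0 0 = (N (dir 0))⁻¹ := by simp [hc, dir]
  have e2 : c 0 1 = 0 := by simp [hc, dir]
  have e3 : c θ 1 = (N (dir θ))⁻¹ * Real.sin θ := by simp [hc, dir]
  rw [e1, e2, e3, zero_mul, sub_zero]
  exact (mul_pos (inv_pos.2 (hpos 0)) (mul_pos (inv_pos.2 (hpos θ)) hsin)).ne'

end Pool.Agent.Helper5.MK
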